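import Mathlib
import Pool.Agent.V11104.MM.Low2

set_option autoImplicit false

/-!
The lower bounds for the moments of the integrals of powers of zeta over short intervals.
-/

namespace Pool.Agent.V1126.MZ

open Finset Filter Topology MeasureTheory
open scoped ENNReal
open Pool.Agent.V11104.SM Pool.Agent.V11104.MM

/-- small powers of the integrals of large powers -/
lemma gdrl {E : Set ℝ} {F : ℝ → ℝ≥0∞} (hF : Measurable F) {a η r t l : ℝ} (hη : 0 ≤ η) (hl : 0 ≤ l)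
    (hr : 0 < r) (hr1 : r ≤ 1)
    (hz : ∀ u ∈ Set.Icc (0:ℝ) l, zk E a (t + u) ≤ ∫⁻ v in Set.Icc 0 η, F (t + u + v)) :
    (∫⁻ u in Set.Icc (0:ℝ) l, zk E (a / r) (t + u)) ^ r ≤
      ENNReal.ofReal η ^ r * ∫⁻ v in Set.Icc (0:ℝ) (l + η), F (t + v) := by
  set R₂ : ℝ≥0∞ := ∫⁻ v in Set.Icc (0:ℝ) (l + η), F (t + v) with hR₂
  set Q : ℝ → ℝ≥0∞ := fun u => ∫⁻ v in Set.Icc 0 η, F (t + u + v) with hQ
  have hQm : Measurable Q := by
    have h1 : Measurable fun s : ℝ => ∫⁻ v in Set.Icc 0 η, F (s + v) := (meas2 hF).lintegral_prod_right'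
    exact h1.comp (measurable_const_add t)
  have hQR : ∀ u ∈ Set.Icc (0:ℝ) l, Q u ≤ R₂ := by
    intro u hu
    have e1 : Q u = ∫⁻ v in Set.Icc 0 η, (fun w => F (t + w)) (v + u) := by
      simp only [hQ]
      refine lintegral_congr fun v => ?_
      congr 1
      ring
    rw [e1]
    exact tr (fun w => F (t + w)) (by linarith [hu.1]) (by linarith [hu.2])
  have hQi : ∫⁻ u in Set.Icc (0:ℝ) l, Q u ≤ ENNReal.ofReal η * R₂ := by
    have e1 : ∀ u, Q u = ∫⁻ v in Set.Icc 0 η, (fun w => F (t + w)) (u + v) := by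
      intro u
      simp only [hQ]
      refine lintegral_congr fun v => ?_
      congr 1
      ring
    simp_rw [e1]
    exact dbl (hF.comp (measurable_const_add t)) hη le_rfl (by linarith)
  have h0 : 0 < 1 / r := by positivity
  have h1r : 0 ≤ 1 / r - 1 := by
    rw [sub_nonneg, le_div_iff₀ hr]
    linarith
  have h1 : ∫⁻ u in Set.Icc (0:ℝ) l, zk E (a / r) (t + u) ≤ ENNReal.ofReal η * R₂ ^ (1 / r) := by
    calc ∫⁻ u in Set.Icc (0:ℝ) l, zk E (a / r) (t + u)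
        ≤ ∫⁻ u in Set.Icc (0:ℝ) l, R₂ ^ (1 / r - 1) * Q u := by
          refine setLIntegral_mono' measurableSet_Icc fun u hu => ?_
          rw [zk_rpow hr]
          calc zk E a (t + u) ^ (1 / r) ≤ Q u ^ (1 / r) := ENNReal.rpow_le_rpow (hz u hu) h0.le
            _ = Q u ^ (1 / r - 1) * Q u := by
                have e : 1 / r = (1 / r - 1) + 1 := by ring
                conv_lhs => rw [e]
                rw [ENNReal.rpow_add_of_nonneg _ _ h1r zero_le_one, ENNReal.rpow_one]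
            _ ≤ _ := by
                gcongr
                exact hQR u hu
      _ = R₂ ^ (1 / r - 1) * ∫⁻ u in Set.Icc (0:ℝ) l, Q u := lintegral_const_mul _ hQm
      _ ≤ R₂ ^ (1 / r - 1) * (ENNReal.ofReal η * R₂) := by gcongr
      _ = ENNReal.ofReal η * R₂ ^ (1 / r) := by
          have e : 1 / r = (1 / r - 1) + 1 := by ring
          conv_rhs => rw [e]
          rw [ENNReal.rpow_add_of_nonneg _ _ h1r zero_le_one, ENNReal.rpow_one]
          ring
  calc (∫⁻ u in Set.Icc (0:ℝ) l, zk E (a / r) (t + u)) ^ r ≤ (ENNReal.ofReal η * R₂ ^ (1 / r)) ^ r :=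
        ENNReal.rpow_le_rpow h1 hr.le
    _ = ENNReal.ofReal η ^ r * R₂ := by
        rw [ENNReal.mul_rpow_of_nonneg _ _ hr.le, ← ENNReal.rpow_mul, one_div, inv_mul_cancel₀ hr.ne', ENNReal.rpow_one]

/-- Cauchy's inequality for the integrals over short intervals -/
lemma csl {E : Set ℝ} (hE : MeasurableSet E) (hne : ∀ s ∈ E, riemannZeta (1 / 2 + s * Complex.I) ≠ 0)
    {a b d t l : ℝ} (h : 2 * a = b + d) :
    ∫⁻ u in Set.Icc (0:ℝ) l, zk E a (t + u) ≤
      (∫⁻ u in Set.Icc (0:ℝ) l, zk E b (t + u)) ^ (1 / 2 : ℝ) * (∫⁻ u in Set.Icc (0:ℝ) l, zk E d (t + u)) ^ (1 / 2 : ℝ) := by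
  have hm : ∀ k, Measurable fun u => zk E k (t + u) := fun k => (zk_meas hE k).comp (measurable_const_add t)
  have hH := ENNReal.lintegral_mul_le_Lp_mul_Lq (volume.restrict (Set.Icc (0:ℝ) l)) Real.HolderConjugate.two_two
    ((hm b).pow_const (1 / 2 : ℝ)).aemeasurable ((hm d).pow_const (1 / 2 : ℝ)).aemeasurable
  have e1 : ∀ k u, (zk E k (t + u) ^ (1 / 2 : ℝ)) ^ (2:ℝ) = zk E k (t + u) := by
    intro k u
    rw [← ENNReal.rpow_mul]
    norm_num
  simp only [Pi.mul_apply, e1] at hH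
  refine le_trans (lintegral_mono fun u => ?_) hH
  unfold zk
  by_cases hs : t + u ∈ E
  · rw [Set.indicator_of_mem hs, Set.indicator_of_mem hs, Set.indicator_of_mem hs,
      ENNReal.ofReal_rpow_of_nonneg (Real.rpow_nonneg (norm_nonneg _) _) (by norm_num),
      ENNReal.ofReal_rpow_of_nonneg (Real.rpow_nonneg (norm_nonneg _) _) (by norm_num),
      ← ENNReal.ofReal_mul (Real.rpow_nonneg (Real.rpow_nonneg (norm_nonneg _) _) _),
      ← Real.rpow_mul (norm_nonneg _), ← Real.rpow_mul (norm_nonneg _)]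
    refine ENNReal.ofReal_le_ofReal ?_
    have h0 : 0 < ‖riemannZeta (1 / 2 + ((t + u : ℝ) : ℂ) * Complex.I)‖ := norm_pos_iff.mpr (hne _ hs)
    rw [← Real.rpow_add h0]
    refine le_of_eq ?_
    congr 1
    linarith
  · rw [Set.indicator_of_notMem hs]
    exact zero_le

/-- the integral of the integrals -/
lemma avgl {F : ℝ → ℝ≥0∞} (hF : Measurable F) (T H : ℝ) {l : ℝ} (hl1 : l ≤ 1) :
    ENNReal.ofReal l * ∫⁻ s in Set.Icc (T + 1) (T + H), F s ≤
      ∫⁻ t in Set.Icc T (T + H), ∫⁻ u in Set.Icc (0:ℝ) l, F (t + u) := by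
  rw [lintegral_lintegral_swap (meas2 hF).aemeasurable]
  have h1 : ∀ u ∈ Set.Icc (0:ℝ) l, ∫⁻ s in Set.Icc (T + 1) (T + H), F s ≤ ∫⁻ t in Set.Icc T (T + H), F (t + u) := by
    intro u hu
    rw [← lintegral_indicator measurableSet_Icc, ← lintegral_indicator measurableSet_Icc,
      ← lintegral_add_right_eq_self _ u]
    refine lintegral_mono fun t => ?_
    by_cases ht : t + u ∈ Set.Icc (T + 1) (T + H)
    · rw [Set.indicator_of_mem ht, Set.indicator_of_mem (show t ∈ Set.Icc T (T + H) from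
        ⟨by linarith [ht.1, hu.2], by linarith [ht.2, hu.1]⟩)]
    · rw [Set.indicator_of_notMem ht]
      exact zero_le
  calc ENNReal.ofReal l * ∫⁻ s in Set.Icc (T + 1) (T + H), F s =
        ∫⁻ _u in Set.Icc (0:ℝ) l, ∫⁻ s in Set.Icc (T + 1) (T + H), F s := by
        rw [lintegral_const, Measure.restrict_apply_univ, Real.volume_Icc, sub_zero, mul_comm]
    _ ≤ _ := setLIntegral_mono' measurableSet_Icc h1

/-- the integral over a short interval -/
noncomputable def Gl (E : Set ℝ) (l k t : ℝ) : ℝ :=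
  ∫ u in {u : ℝ | u ∈ Set.Icc (0:ℝ) l ∧ t + u ∈ E}, ‖riemannZeta (1 / 2 + ((t + u : ℝ) : ℂ) * Complex.I)‖ ^ (2 * k)

lemma Gl_nonneg (E : Set ℝ) (l k t : ℝ) : 0 ≤ Gl E l k t :=
  integral_nonneg fun _ => Real.rpow_nonneg (norm_nonneg _) _

lemma Gl_eq {E : Set ℝ} (hE : MeasurableSet E) (l k t : ℝ) :
    Gl E l k t = (∫⁻ u in Set.Icc (0:ℝ) l, zk E k (t + u)).toReal := by
  unfold Gl
  have hm : Measurable fun u : ℝ => ‖riemannZeta (1 / 2 + ((t + u : ℝ) : ℂ) * Complex.I)‖ ^ (2 * k) := by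
    have e : (fun u : ℝ => ‖riemannZeta (1 / 2 + ((t + u : ℝ) : ℂ) * Complex.I)‖ ^ (2 * k)) =
        (fun s : ℝ => ‖riemannZeta (1 / 2 + (s : ℂ) * Complex.I)‖ ^ (2 * k)) ∘ fun u => t + u := rfl
    rw [e]
    exact (zeta_cont.norm.measurable.pow_const _).comp (measurable_const_add t)
  rw [integral_eq_lintegral_of_nonneg_ae (Filter.Eventually.of_forall fun _ => Real.rpow_nonneg (norm_nonneg _) _)
    hm.aestronglyMeasurable]
  congr 1
  have hmE : MeasurableSet ((fun u => t + u) ⁻¹' E) := (measurable_const_add t) hE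
  have e1 : {u : ℝ | u ∈ Set.Icc (0:ℝ) l ∧ t + u ∈ E} = ((fun u => t + u) ⁻¹' E) ∩ Set.Icc (0:ℝ) l := by
    ext u
    simp only [Set.mem_ofPred_eq, Set.mem_inter_iff, Set.mem_preimage]
    tauto
  rw [e1, ← setLIntegral_indicator hmE]
  refine lintegral_congr fun u => ?_
  unfold zk
  by_cases hu : t + u ∈ E
  · rw [Set.indicator_of_mem (show u ∈ (fun u => t + u) ⁻¹' E from hu), Set.indicator_of_mem hu]
  · rw [Set.indicator_of_notMem (show u ∉ (fun u => t + u) ⁻¹' E from hu), Set.indicator_of_notMem hu]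

lemma Glt_meas {E : Set ℝ} (hE : MeasurableSet E) (l k : ℝ) :
    Measurable fun t : ℝ => ∫⁻ u in Set.Icc (0:ℝ) l, zk E k (t + u) :=
  (meas2 (zk_meas hE k)).lintegral_prod_right'

lemma Gl_meas {E : Set ℝ} (hE : MeasurableSet E) (l k : ℝ) : Measurable (Gl E l k) := by
  have e : Gl E l k = fun t => (∫⁻ u in Set.Icc (0:ℝ) l, zk E k (t + u)).toReal := funext fun t => Gl_eq hE l k t
  rw [e]
  exact (Glt_meas hE l k).ennreal_toReal

/-- upper bounds for the moments -/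
lemma Gl_up {E : Set ℝ} (hE : MeasurableSet E) {l k X : ℝ} (hX : 0 ≤ X) {S : Set ℝ} (q : ℕ)
    (h : ∫⁻ t in S, (∫⁻ u in Set.Icc (0:ℝ) l, zk E k (t + u)) ^ q ≤ ENNReal.ofReal X) :
    IntegrableOn (fun t => Gl E l k t ^ q) S ∧ ∫ t in S, Gl E l k t ^ q ≤ X := by
  have h1 : ∀ t, ENNReal.ofReal (Gl E l k t ^ q) ≤ (∫⁻ u in Set.Icc (0:ℝ) l, zk E k (t + u)) ^ q := by
    intro t
    rw [ENNReal.ofReal_pow (Gl_nonneg E l k t), Gl_eq hE]
    exact pow_le_pow_left' ENNReal.ofReal_toReal_le q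
  have h2 : ∫⁻ t in S, ENNReal.ofReal (Gl E l k t ^ q) ≤ ENNReal.ofReal X := (lintegral_mono h1).trans h
  have hm : Measurable fun t => Gl E l k t ^ q := (Gl_meas hE l k).pow_const q
  refine ⟨⟨hm.aestronglyMeasurable, ?_⟩, ?_⟩
  · rw [hasFiniteIntegral_iff_ofReal (Filter.Eventually.of_forall fun t => pow_nonneg (Gl_nonneg E l k t) q)]
    exact h2.trans_lt ENNReal.ofReal_lt_top
  · rw [integral_eq_lintegral_of_nonneg_ae (Filter.Eventually.of_forall fun t => pow_nonneg (Gl_nonneg E l k t) q)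
      hm.aestronglyMeasurable]
    exact ENNReal.toReal_le_of_le_ofReal hX h2

/-- lower bounds for the moments -/
lemma Gl_low {E : Set ℝ} (hE : MeasurableSet E) {l k Y : ℝ} (hl : 0 < l) (hl1 : l ≤ 1) (hY : 0 ≤ Y) {T H : ℝ}
    (hH : 0 < H) (q : ℕ)
    (hfin : ∫⁻ t in Set.Icc T (T + H), (∫⁻ u in Set.Icc (0:ℝ) l, zk E k (t + u)) ≠ ⊤)
    (hq : IntegrableOn (fun t => Gl E l k t ^ q) (Set.Icc T (T + H)))
    (h : ENNReal.ofReal (Y * H) ≤ ∫⁻ s in Set.Icc (T + 1) (T + H), zk E k s) :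
    (l * Y) ^ q * H ≤ ∫ t in Set.Icc T (T + H), Gl E l k t ^ q := by
  have hae := ae_lt_top (Glt_meas hE l k) hfin
  have hi : IntegrableOn (fun t => Gl E l k t) (Set.Icc T (T + H)) := by
    have e : (fun t => Gl E l k t) = fun t => (∫⁻ u in Set.Icc (0:ℝ) l, zk E k (t + u)).toReal :=
      funext fun t => Gl_eq hE l k t
    rw [e]
    exact integrable_toReal_of_lintegral_ne_top (Glt_meas hE l k).aemeasurable hfin
  have h1 : l * (Y * H) ≤ ∫ t in Set.Icc T (T + H), Gl E l k t := by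
    have e : ∫ t in Set.Icc T (T + H), Gl E l k t =
        (∫⁻ t in Set.Icc T (T + H), ∫⁻ u in Set.Icc (0:ℝ) l, zk E k (t + u)).toReal := by
      simp_rw [Gl_eq hE]
      exact integral_toReal (Glt_meas hE l k).aemeasurable hae
    rw [e, ← ENNReal.ofReal_le_iff_le_toReal hfin, ENNReal.ofReal_mul hl.le]
    exact (mul_le_mul_right h _).trans (avgl (zk_meas hE k) T H hl1)
  have h2 := jensen (fun t => Gl_nonneg E l k t) hH hi q hq
  refine le_trans ?_ h2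
  rw [mul_comm ((l * Y) ^ q) H]
  refine mul_le_mul_of_nonneg_left (pow_le_pow_left₀ (by positivity) ?_ q) hH.le
  rw [le_div_iff₀ hH]
  linarith

lemma Gl_int {E : Set ℝ} (hE : MeasurableSet E) {l k : ℝ} {S : Set ℝ} {q : ℕ} (hq : 1 ≤ q)
    (hfin : ∫⁻ t in S, (∫⁻ u in Set.Icc (0:ℝ) l, zk E k (t + u)) ^ q ≠ ⊤)
    (hi : IntegrableOn (fun t => Gl E l k t ^ q) S) :
    ∫⁻ t in S, (∫⁻ u in Set.Icc (0:ℝ) l, zk E k (t + u)) ^ q = ENNReal.ofReal (∫ t in S, Gl E l k t ^ q) := by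
  rw [ofReal_integral_eq_lintegral_ofReal hi (Filter.Eventually.of_forall fun t => pow_nonneg (Gl_nonneg E l k t) q)]
  refine lintegral_congr_ae ?_
  filter_upwards [ae_lt_top ((Glt_meas hE l k).pow_const q) hfin] with t ht
  have h1 : ∫⁻ u in Set.Icc (0:ℝ) l, zk E k (t + u) ≠ ⊤ := by
    intro h2
    rw [h2, ENNReal.top_pow (by omega)] at ht
    exact lt_irrefl _ ht
  rw [ENNReal.ofReal_pow (Gl_nonneg E l k t), Gl_eq hE, ENNReal.ofReal_toReal h1]

/-- the lower bounds of the second kind -/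
lemma sup_lowl {E : Set ℝ} (hE : MeasurableSet E) (hne : ∀ s ∈ E, riemannZeta (1 / 2 + s * Complex.I) ≠ 0)
    {T H L a c C l : ℝ} {q : ℕ} (hq : 1 ≤ q) (hL : 0 < L) (hH : 0 < H) (hc : 0 < c) (hC : 0 < C)
    (hl : 0 < l) (hl1 : l ≤ 1)
    (h1 : ENNReal.ofReal (c * L ^ (a ^ 2) * H) ≤ ∫⁻ s in Set.Icc (T + 1) (T + H), zk E a s)
    (h2 : ∫⁻ t in Set.Icc T (T + H), (∫⁻ u in Set.Icc (0:ℝ) l, zk E (a / ((q:ℝ) / (2 * q - 1))) (t + u)) ^
      ((q:ℝ) / (2 * q - 1)) ≤ ENNReal.ofReal (C * H * l * L ^ (1 - (q:ℝ) / (2 * q - 1) + a ^ 2)))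
    (hi : IntegrableOn (fun t => Gl E l (a / q) t ^ q) (Set.Icc T (T + H)))
    (hfin : ∫⁻ t in Set.Icc T (T + H), (∫⁻ u in Set.Icc (0:ℝ) l, zk E (a / q) (t + u)) ^ q ≠ ⊤) :
    c ^ (2 * q) / C ^ (2 * q - 1) * H * l * L ^ (a ^ 2 - q + 1) ≤
      ∫ t in Set.Icc T (T + H), Gl E l (a / q) t ^ q := by
  have hq1 : (1:ℝ) ≤ q := by exact_mod_cast hq
  have hq2 : (0:ℝ) < 2 * q - 1 := by linarith
  set r : ℝ := (q:ℝ) / (2 * q - 1) with hr
  set x : ℝ := ∫ t in Set.Icc T (T + H), Gl E l (a / q) t ^ q with hx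
  have hx0 : 0 ≤ x := integral_nonneg fun t => pow_nonneg (Gl_nonneg E l _ t) q
  set Y : ℝ := l * (c * L ^ (a ^ 2) * H) with hY
  set Z : ℝ := C * H * l * L ^ (1 - r + a ^ 2) with hZ
  have hY0 : 0 < Y := by positivity
  have hZ0 : 0 < Z := by positivity
  have s1 : ENNReal.ofReal Y ≤ ∫⁻ t in Set.Icc T (T + H),
      (∫⁻ u in Set.Icc (0:ℝ) l, zk E (a / q) (t + u)) ^ (1 / 2 : ℝ) *
        (∫⁻ u in Set.Icc (0:ℝ) l, zk E (a / r) (t + u)) ^ (1 / 2 : ℝ) := by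
    have h3 : ENNReal.ofReal Y ≤ ENNReal.ofReal l * ∫⁻ s in Set.Icc (T + 1) (T + H), zk E a s := by
      rw [hY, ENNReal.ofReal_mul hl.le]
      exact mul_le_mul_right h1 _
    refine (h3.trans (avgl (zk_meas hE a) T H hl1)).trans (lintegral_mono fun t => ?_)
    refine csl hE hne ?_
    rw [hr]
    field_simp
    ring
  have s2 := hol (ν := volume.restrict (Set.Icc T (T + H))) (Glt_meas hE l (a / q)) (Glt_meas hE l (a / r)) hq
  rw [Gl_int hE hq hfin hi] at s2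
  have s3 : ENNReal.ofReal Y ^ (2 * q) ≤ ENNReal.ofReal x * ENNReal.ofReal Z ^ (2 * q - 1) := by
    refine (pow_le_pow_left' s1 (2 * q)).trans (s2.trans ?_)
    gcongr
  rw [← ENNReal.ofReal_pow hY0.le, ← ENNReal.ofReal_pow hZ0.le, ← ENNReal.ofReal_mul hx0,
    ENNReal.ofReal_le_ofReal_iff (by positivity)] at s3
  have hZp : 0 < Z ^ (2 * q - 1) := by positivity
  refine le_of_mul_le_mul_right (le_trans (le_of_eq ?_) s3) hZp
  have hcast : ((2 * q - 1 : ℕ) : ℝ) = 2 * q - 1 := by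
    rw [Nat.cast_sub (by omega)]
    push_cast
    ring
  have e1 : (L ^ (a ^ 2)) ^ (2 * q) = L ^ (a ^ 2 * (2 * q)) := by
    rw [← Real.rpow_natCast, ← Real.rpow_mul hL.le]
    congr 1
    push_cast
    ring
  have e2 : (L ^ (1 - r + a ^ 2)) ^ (2 * q - 1) = L ^ ((1 - r + a ^ 2) * (2 * q - 1)) := by
    rw [← Real.rpow_natCast, ← Real.rpow_mul hL.le, hcast]
  have e3 : L ^ (a ^ 2 - q + 1) * L ^ ((1 - r + a ^ 2) * (2 * q - 1)) = L ^ (a ^ 2 * (2 * q)) := by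
    rw [← Real.rpow_add hL]
    congr 1
    have hrq : r * (2 * q - 1) = q := by
      rw [hr]
      exact div_mul_cancel₀ _ hq2.ne'
    linear_combination -hrq
  have e4 : H ^ (2 * q) = H * H ^ (2 * q - 1) := by
    rw [← pow_succ']
    congr 1
    omega
  have e5 : l ^ (2 * q) = l * l ^ (2 * q - 1) := by
    rw [← pow_succ']
    congr 1
    omega
  rw [hY, hZ, mul_pow, mul_pow, mul_pow, mul_pow, mul_pow, mul_pow, e1, e2, e4, e5, ← e3]
  have hCp : C ^ (2 * q - 1) ≠ 0 := by positivity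
  field_simp

end Pool.Agent.V1126.MZ
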