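import Mathlib
import Pool.Agent.V11104.MM.Up2

set_option autoImplicit false

/-!
The upper bounds for the moments of the integrals of powers of zeta over short intervals.
-/

namespace Pool.Agent.V1126.MZ

open Finset Filter Topology MeasureTheory
open scoped ENNReal
open Pool.Agent.V11104.SM Pool.Agent.V11104.MM

/-- the integral of the bound -/
noncomputable def Il (δ ρ l : ℝ) : ℝ := 2 * ∫ x in δ..(δ + l), x ^ (-ρ)

lemma int_bl {δ : ℝ} (hδ : 0 < δ) (ρ : ℝ) {l : ℝ} (hl : 0 < l) {a : ℝ} (ha : a ∈ Set.Icc (0:ℝ) l) :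
    ∫⁻ y in Set.Icc (0:ℝ) l, ENNReal.ofReal ((δ + |a - y|) ^ (-ρ)) ≤ ENNReal.ofReal (Il δ ρ l) := by
  obtain ⟨ha0, ha1⟩ := ha
  have hc : Continuous fun y : ℝ => (δ + |a - y|) ^ (-ρ) := by
    refine Continuous.rpow_const (by fun_prop) fun y => Or.inl ?_
    have : 0 < δ + |a - y| := by positivity
    exact this.ne'
  have hco : ∀ u v : ℝ, 0 < u → 0 < v → IntervalIntegrable (fun x : ℝ => x ^ (-ρ)) volume u v := by
    intro u v hu hv
    refine ContinuousOn.intervalIntegrable fun x hx => ?_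
    have hx0 : 0 < x := lt_of_lt_of_le (lt_min hu hv) hx.1
    exact (Real.continuousAt_rpow_const x _ (Or.inl hx0.ne')).continuousWithinAt
  have h1 : ∫ y in Set.Icc (0:ℝ) l, (δ + |a - y|) ^ (-ρ) ≤ Il δ ρ l := by
    rw [integral_Icc_eq_integral_Ioc, ← intervalIntegral.integral_of_le hl.le,
      ← intervalIntegral.integral_add_adjacent_intervals (hc.intervalIntegrable 0 a) (hc.intervalIntegrable a l)]
    have e1 : ∫ y in (0:ℝ)..a, (δ + |a - y|) ^ (-ρ) = ∫ x in δ..(δ + a), x ^ (-ρ) := by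
      have h2 : ∫ y in (0:ℝ)..a, (δ + |a - y|) ^ (-ρ) = ∫ y in (0:ℝ)..a, ((δ + a) - y) ^ (-ρ) := by
        refine intervalIntegral.integral_congr fun y hy => ?_
        rw [Set.uIcc_of_le ha0] at hy
        rw [abs_of_nonneg (by linarith [hy.2])]
        congr 1
        ring
      rw [h2, intervalIntegral.integral_comp_sub_left (fun x => x ^ (-ρ)) (δ + a)]
      congr 1 <;> ring
    have e2 : ∫ y in a..l, (δ + |a - y|) ^ (-ρ) = ∫ x in δ..(δ + (l - a)), x ^ (-ρ) := by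
      have h2 : ∫ y in a..l, (δ + |a - y|) ^ (-ρ) = ∫ y in a..l, ((δ - a) + y) ^ (-ρ) := by
        refine intervalIntegral.integral_congr fun y hy => ?_
        rw [Set.uIcc_of_le ha1] at hy
        rw [abs_of_nonpos (by linarith [hy.1])]
        congr 1
        ring
      rw [h2, intervalIntegral.integral_comp_add_left (fun x => x ^ (-ρ)) (δ - a)]
      congr 1 <;> ring
    have m : ∀ b ∈ Set.Icc (0:ℝ) l, ∫ x in δ..(δ + b), x ^ (-ρ) ≤ ∫ x in δ..(δ + l), x ^ (-ρ) := by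
      intro b hb
      refine intervalIntegral.integral_mono_interval le_rfl (by linarith [hb.1]) (by linarith [hb.2]) ?_
        (hco _ _ hδ (by linarith))
      refine (ae_restrict_iff' measurableSet_Ioc).mpr (Filter.Eventually.of_forall fun x hx => ?_)
      exact Real.rpow_nonneg (by linarith [hx.1]) _
    rw [e1, e2]
    unfold Il
    have := m a ⟨ha0, ha1⟩
    have := m (l - a) ⟨by linarith, by linarith⟩
    linarith
  rw [← ofReal_integral_eq_lintegral_ofReal (hc.continuousOn.integrableOn_Icc)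
    (Filter.Eventually.of_forall fun y => Real.rpow_nonneg (by positivity) _)]
  exact ENNReal.ofReal_le_ofReal h1

lemma Il_lt {δ ρ l : ℝ} (hδ : 0 < δ) (hδ1 : δ ≤ l) (h0 : 0 ≤ ρ) (h1 : ρ < 1) :
    Il δ ρ l ≤ 4 / (1 - ρ) * l ^ (1 - ρ) := by
  unfold Il
  rw [integral_rpow (Or.inl (by linarith))]
  have e : -ρ + 1 = 1 - ρ := by ring
  rw [e]
  have hl : 0 < l := by linarith
  have h2 : (δ + l) ^ (1 - ρ) ≤ 2 * l ^ (1 - ρ) := by
    calc (δ + l) ^ (1 - ρ) ≤ (2 * l) ^ (1 - ρ) := Real.rpow_le_rpow (by linarith) (by linarith) (by linarith)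
      _ = 2 ^ (1 - ρ) * l ^ (1 - ρ) := Real.mul_rpow (by norm_num) hl.le
      _ ≤ 2 ^ (1:ℝ) * l ^ (1 - ρ) := by
          refine mul_le_mul_of_nonneg_right ?_ (Real.rpow_nonneg hl.le _)
          exact Real.rpow_le_rpow_of_exponent_le (by norm_num) (by linarith)
      _ = _ := by rw [Real.rpow_one]
  have h3 : 0 ≤ δ ^ (1 - ρ) := Real.rpow_nonneg hδ.le _
  rw [mul_div_assoc', div_mul_eq_mul_div]
  refine div_le_div_of_nonneg_right ?_ (by linarith)
  linarith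

lemma Il_gt {δ ρ l : ℝ} (hδ : 0 < δ) (hl : 0 < l) (h1 : 1 < ρ) : Il δ ρ l ≤ 2 / (ρ - 1) * (1 / δ) ^ (ρ - 1) := by
  unfold Il
  rw [integral_rpow (Or.inr ⟨by linarith, by
    rw [Set.uIcc_of_le (by linarith)]
    intro h
    linarith [h.1]⟩)]
  have e : -ρ + 1 = -(ρ - 1) := by ring
  rw [e]
  have h3 : 0 ≤ (δ + l) ^ (-(ρ - 1)) := Real.rpow_nonneg (by linarith) _
  have h4 : (1 / δ) ^ (ρ - 1) = δ ^ (-(ρ - 1)) := by
    rw [one_div, Real.inv_rpow hδ.le, Real.rpow_neg hδ.le]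
  have hr : 0 < ρ - 1 := by linarith
  have h5 : 2 * (((δ + l) ^ (-(ρ - 1)) - δ ^ (-(ρ - 1))) / (-(ρ - 1))) =
      2 / (ρ - 1) * (δ ^ (-(ρ - 1)) - (δ + l) ^ (-(ρ - 1))) := by
    field_simp
    ring
  rw [h4, h5]
  refine mul_le_mul_of_nonneg_left ?_ (by positivity)
  linarith

lemma Il_eq {δ l : ℝ} (hδ : 0 < δ) (hl : 0 < l) : Il δ 1 l = 2 * Real.log ((δ + l) / δ) := by
  unfold Il
  congr 1
  have : ∀ x : ℝ, x ^ (-1:ℝ) = x⁻¹ := fun x => Real.rpow_neg_one x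
  simp_rw [this]
  rw [integral_inv_of_pos hδ (by linarith)]

lemma Il_pos {δ ρ l : ℝ} (hδ : 0 < δ) (hl : 0 < l) : 0 ≤ Il δ ρ l := by
  unfold Il
  refine mul_nonneg (by norm_num) ?_
  refine intervalIntegral.integral_nonneg (by linarith) fun x hx => Real.rpow_nonneg (by linarith [hx.1]) _

/-- the normalized measure -/
noncomputable def mu (l : ℝ) : Measure ℝ := (ENNReal.ofReal (1 / l)) • volume.restrict (Set.Icc (0:ℝ) l)

lemma mu_prob {l : ℝ} (hl : 0 < l) : IsProbabilityMeasure (mu l) := by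
  refine ⟨?_⟩
  unfold mu
  rw [Measure.smul_apply, Measure.restrict_apply_univ, Real.volume_Icc, sub_zero, smul_eq_mul,
    ← ENNReal.ofReal_mul (by positivity), one_div_mul_cancel hl.ne', ENNReal.ofReal_one]

lemma mu_int {l : ℝ} (hl : 0 < l) (f : ℝ → ℝ≥0∞) :
    ∫⁻ u in Set.Icc (0:ℝ) l, f u = ENNReal.ofReal l * ∫⁻ u, f u ∂(mu l) := by
  unfold mu
  rw [lintegral_smul_measure, smul_eq_mul, ← mul_assoc, ← ENNReal.ofReal_mul hl.le,
    mul_one_div_cancel hl.ne', ENNReal.ofReal_one, one_mul]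

/-- the moments of the integrals over short intervals -/
theorem up2l {θ K W δ : ℝ} {n R N : ℕ} (hn : 1 ≤ n) (hR : 1 ≤ R) (hK : 0 ≤ K) (hN : N * K ≤ n) (hW : 0 ≤ W)
    (hδ : 0 < δ) (hδ2 : δ ≤ 1 / 2) (hlen : 216 * n * (R + 1) * δ ≤ θ) {E : Set ℝ} (hE : MeasurableSet E)
    (hD : Dat W R δ E) (hA : E ⊆ Aw) :
    ∃ C : ℝ, 0 < C ∧ ∀ᶠ T : ℝ in atTop, ∀ H : ℝ, T ^ θ ≤ H → H ≤ T → ∀ l : ℝ, 0 < l → l ≤ 1 →
      ∀ m : ℕ, m + 1 ≤ N → ∀ k : ℝ, |k| ≤ K →
      ∫⁻ t in Set.Icc T (T + H), (∫⁻ u in Set.Icc (0:ℝ) l, zk E k (t + u)) ^ (m + 1) ≤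
        ENNReal.ofReal (C * H * l * Real.log T ^ (((m + 1 : ℕ) : ℝ) * k ^ 2) *
          (Il (1 / Real.log T) (((m + 1 : ℕ) : ℝ) * k ^ 2) l) ^ m) := by
  obtain ⟨C₁, hC₁, h1⟩ := up1 hn hR hK hW hδ hδ2 hlen hE hD hA
  obtain ⟨C₀, hC₀, hz⟩ := zeta_near
  have hC₀0 : 0 < C₀ := by linarith
  refine ⟨C₁ * C₀ ^ (K ^ 2 * (N:ℝ) ^ 2) * (N + 1), by positivity, ?_⟩
  filter_upwards [h1, Real.tendsto_log_atTop.eventually_ge_atTop 1, eventually_gt_atTop (0:ℝ)] with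
    T hT hL hT0 H hH1 hH2 l hl hl1 m hmN k hk
  have := mu_prob hl
  have hH0 : 0 < H := lt_of_lt_of_le (Real.rpow_pos_of_pos hT0 _) hH1
  set L := Real.log T with hLd
  have hL0 : 0 < L := by linarith
  have hmN' : ((m + 1 : ℕ) : ℝ) ≤ N := by exact_mod_cast hmN
  have hmK : ((m + 1 : ℕ) : ℝ) * K ≤ n := (mul_le_mul_of_nonneg_right hmN' hK).trans hN
  set ρ : ℝ := ((m + 1 : ℕ) : ℝ) * k ^ 2 with hρ
  set A : ℝ := ((C₀ * L) ^ (k * k) * (C₀ ^ (k * k)) ^ m) ^ (m + 1) with hA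
  have hA0 : 0 ≤ A := by positivity
  set b : ℝ → ℝ → ℝ≥0∞ := fun a y => ENNReal.ofReal ((1 / L + |a - y|) ^ (-(k * k))) with hb
  have hbm : Measurable (Function.uncurry b) := by
    have e : Function.uncurry b = fun z : ℝ × ℝ => ENNReal.ofReal ((1 / L + |z.1 - z.2|) ^ (-(k * k))) := rfl
    rw [e]
    refine ENNReal.measurable_ofReal.comp (Measurable.pow_const ?_ _)
    fun_prop
  have hfm : Measurable (Function.uncurry fun t u : ℝ => zk E k (t + u)) := by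
    have e : (Function.uncurry fun t u : ℝ => zk E k (t + u)) = zk E k ∘ fun z : ℝ × ℝ => z.1 + z.2 := rfl
    rw [e]
    exact (zk_meas hE k).comp (measurable_fst.add measurable_snd)
  have haeS : ∀ᵐ u ∂(mu l), u ∈ Set.Icc (0:ℝ) l := by
    unfold mu
    exact Measure.ae_smul_measure (ae_restrict_mem measurableSet_Icc) _
  have hI := Il_pos (δ := 1 / L) (ρ := ρ) (l := l) (by positivity) hl
  have ht := tone m (μ := mu l) (ν := volume.restrict (Set.Icc T (T + H)))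
    (f := fun t u => zk E k (t + u)) hfm hbm (C := ENNReal.ofReal (C₁ * H * A))
    (M := ENNReal.ofReal (Il (1 / L) ρ l / l)) (S := Set.Icc (0:ℝ) l) haeS
    (fun x hx => by
      have hx1 : ∀ j, x j ∈ Set.Icc (0:ℝ) 1 := fun j => ⟨(hx j).1, (hx j).2.trans hl1⟩
      refine (hT H hH1 hH2 m x hx1 hmK k hk).trans ?_
      have hp := pairs hC₀ hz hL hx1 k
      have e1 : ∏ l, ∏ j : Fin m, b (x l) (x (l.succAbove j)) =
          ENNReal.ofReal (∏ l, ∏ j : Fin m, (1 / L + |x l - x (l.succAbove j)|) ^ (-(k * k))) := by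
        rw [ENNReal.ofReal_prod_of_nonneg fun l _ => prod_nonneg fun j _ => Real.rpow_nonneg (by positivity) _]
        refine prod_congr rfl fun l _ => ?_
        rw [ENNReal.ofReal_prod_of_nonneg fun j _ => Real.rpow_nonneg (by positivity) _]
      rw [e1, ← ENNReal.ofReal_mul (by positivity)]
      refine ENNReal.ofReal_le_ofReal ?_
      rw [mul_assoc (C₁ * H)]
      exact mul_le_mul_of_nonneg_left hp (by positivity))
    (fun a ha => by
      have e2 : ∀ y, b a y ^ (m + 1) = ENNReal.ofReal ((1 / L + |a - y|) ^ (-ρ)) := by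
        intro y
        have h0 : 0 < 1 / L + |a - y| := by positivity
        simp only [hb]
        rw [← ENNReal.ofReal_pow (Real.rpow_nonneg h0.le _), ← Real.rpow_natCast, ← Real.rpow_mul h0.le]
        congr 2
        rw [hρ]
        ring
      simp_rw [e2]
      have h5 := int_bl (δ := 1 / L) (by positivity) ρ hl ha
      unfold mu
      rw [lintegral_smul_measure, smul_eq_mul]
      refine (mul_le_mul_right h5 _).trans (le_of_eq ?_)
      rw [← ENNReal.ofReal_mul (by positivity)]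
      congr 1
      ring)
  have e0 : ∫⁻ t in Set.Icc T (T + H), (∫⁻ u in Set.Icc (0:ℝ) l, zk E k (t + u)) ^ (m + 1) =
      ENNReal.ofReal l ^ (m + 1) * ∫⁻ t in Set.Icc T (T + H), (∫⁻ u, zk E k (t + u) ∂(mu l)) ^ (m + 1) := by
    rw [← lintegral_const_mul]
    · refine lintegral_congr fun t => ?_
      rw [mu_int hl, mul_pow]
    · exact (hfm.lintegral_prod_right').pow_const _
  rw [e0]
  refine (mul_le_mul_right ht _).trans ?_
  have hIl : 0 ≤ Il (1 / L) ρ l / l := by positivity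
  have e3 : ENNReal.ofReal l ^ (m + 1) * (ENNReal.ofReal (C₁ * H * A) *
      (((m + 1 : ℕ) : ℝ≥0∞) * ENNReal.ofReal (Il (1 / L) ρ l / l) ^ m)) =
      ENNReal.ofReal (l ^ (m + 1) * (C₁ * H * A * (((m + 1 : ℕ) : ℝ) * (Il (1 / L) ρ l / l) ^ m))) := by
    rw [← ENNReal.ofReal_pow hIl, ← ENNReal.ofReal_natCast, ← ENNReal.ofReal_mul (by positivity),
      ← ENNReal.ofReal_mul (by positivity), ← ENNReal.ofReal_pow hl.le, ← ENNReal.ofReal_mul (by positivity)]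
  rw [e3]
  refine ENNReal.ofReal_le_ofReal ?_
  have hA2 : A ≤ C₀ ^ (K ^ 2 * (N:ℝ) ^ 2) * L ^ ρ := by
    have e4 : A = C₀ ^ (k ^ 2 * ((m + 1 : ℕ) : ℝ) ^ 2) * L ^ ρ := by
      rw [hA, Real.mul_rpow hC₀0.le hL0.le, mul_pow, mul_pow, ← Real.rpow_natCast (C₀ ^ (k * k)) m,
        ← Real.rpow_natCast (C₀ ^ (k * k)) (m + 1), ← Real.rpow_natCast (L ^ (k * k)) (m + 1),
        ← Real.rpow_natCast ((C₀ ^ (k * k)) ^ (m:ℝ)) (m + 1), ← Real.rpow_mul hC₀0.le, ← Real.rpow_mul hC₀0.le,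
        ← Real.rpow_mul hC₀0.le, ← Real.rpow_mul hL0.le]
      have e5 : C₀ ^ (k * k * ((m + 1 : ℕ) : ℝ)) * L ^ (k * k * ((m + 1 : ℕ) : ℝ)) *
          C₀ ^ (k * k * (m:ℝ) * ((m + 1 : ℕ) : ℝ)) =
          (C₀ ^ (k * k * ((m + 1 : ℕ) : ℝ)) * C₀ ^ (k * k * (m:ℝ) * ((m + 1 : ℕ) : ℝ))) *
            L ^ (k * k * ((m + 1 : ℕ) : ℝ)) := by ring
      rw [e5, ← Real.rpow_add hC₀0]
      congr 2
      · push_cast; ring
      · rw [hρ]; ring
    rw [e4]
    refine mul_le_mul_of_nonneg_right ?_ (by positivity)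
    refine Real.rpow_le_rpow_of_exponent_le hC₀ ?_
    have h6 : k ^ 2 ≤ K ^ 2 := by
      rw [← sq_abs k]; exact pow_le_pow_left₀ (abs_nonneg _) hk 2
    gcongr
  have hIm : 0 ≤ Il (1 / L) ρ l ^ m := pow_nonneg hI m
  have hN1 : ((m + 1 : ℕ) : ℝ) ≤ N + 1 := by linarith
  have e6 : l ^ (m + 1) * (C₁ * H * A * (((m + 1 : ℕ) : ℝ) * (Il (1 / L) ρ l / l) ^ m)) =
      l * (C₁ * H * A * (((m + 1 : ℕ) : ℝ) * (Il (1 / L) ρ l) ^ m)) := by
    rw [div_pow, pow_succ]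
    field_simp
  rw [e6]
  calc l * (C₁ * H * A * (((m + 1 : ℕ) : ℝ) * (Il (1 / L) ρ l) ^ m))
      ≤ l * (C₁ * H * (C₀ ^ (K ^ 2 * (N:ℝ) ^ 2) * L ^ ρ) * ((N + 1) * (Il (1 / L) ρ l) ^ m)) := by
        gcongr
    _ = _ := by ring

end Pool.Agent.V1126.MZ
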