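import Mathlib
import Pool.Agent.V11104.MM.Pkg
import Pool.Agent.V1126.MZ.Up
import Pool.Agent.V1126.MZ.Low

set_option autoImplicit false

/-!
The set, with all bounds at all scales.
-/

namespace Pool.Agent.V1126.MZ

open Finset Filter Topology MeasureTheory
open scoped ENNReal
open Pool.Agent.V11104.SM Pool.Agent.V11104.MM

/-- small powers of the integrals of large powers -/
lemma small_l {E : Set ℝ} {F : ℝ → ℝ≥0∞} (hF : Measurable F) {T H L a C r l : ℝ} (hT : 0 < T) (hL : 1 ≤ L) (hC : 0 ≤ C)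
    (hH : 0 < H) (hHT : H ≤ T)
    (hl0 : 1 / L ≤ l) (hl1 : l ≤ 1) (hr : 0 < r) (hr1 : r ≤ 1)
    (h1 : ∀ s ∈ E, T ≤ s → s ≤ 2 * T + 1 → zk E a s ≤ ∫⁻ v in Set.Icc 0 (1 / L), F (s + v))
    (h2 : ∫⁻ s in Set.Icc T (T + H + 2), F s ≤ ENNReal.ofReal (C * H * L ^ (1 + a ^ 2))) :
    ∫⁻ t in Set.Icc T (T + H), (∫⁻ u in Set.Icc (0:ℝ) l, zk E (a / r) (t + u)) ^ r ≤
        ENNReal.ofReal (2 * C * H * l * L ^ (1 - r + a ^ 2)) := by
  have hL0 : 0 < L := by linarith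
  have hη : 0 ≤ 1 / L := by positivity
  have hl : 0 < l := lt_of_lt_of_le (by positivity) hl0
  calc ∫⁻ t in Set.Icc T (T + H), (∫⁻ u in Set.Icc (0:ℝ) l, zk E (a / r) (t + u)) ^ r
      ≤ ∫⁻ t in Set.Icc T (T + H), ENNReal.ofReal (1 / L) ^ r * ∫⁻ v in Set.Icc (0:ℝ) (l + 1 / L), F (t + v) := by
        refine setLIntegral_mono' measurableSet_Icc fun t ht => ?_
        refine gdrl hF hη hl.le hr hr1 fun u hu => ?_
        by_cases hs : t + u ∈ E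
        · exact h1 (t + u) hs (by linarith [ht.1, hu.1]) (by linarith [ht.2, hu.2])
        · have : zk E a (t + u) = 0 := by
            unfold zk
            exact Set.indicator_of_notMem hs _
          rw [this]
          exact zero_le
    _ = ENNReal.ofReal (1 / L) ^ r * ∫⁻ t in Set.Icc T (T + H), ∫⁻ v in Set.Icc (0:ℝ) (l + 1 / L), F (t + v) :=
        lintegral_const_mul _ (meas2 hF).lintegral_prod_right'
    _ ≤ ENNReal.ofReal (1 / L) ^ r * (ENNReal.ofReal (l + 1 / L) * ∫⁻ s in Set.Icc T (T + H + 2), F s) := by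
        gcongr
        exact dbl hF (by linarith) le_rfl (by linarith)
    _ ≤ ENNReal.ofReal ((1 / L) ^ r) * (ENNReal.ofReal (2 * l) * ENNReal.ofReal (C * H * L ^ (1 + a ^ 2))) := by
        rw [ENNReal.ofReal_rpow_of_nonneg hη hr.le]
        gcongr
        linarith
    _ = ENNReal.ofReal (2 * C * H * l * L ^ (1 - r + a ^ 2)) := by
        rw [← ENNReal.ofReal_mul (by positivity), ← ENNReal.ofReal_mul (by positivity)]
        congr 1
        have e1 : L ^ (1 - r + a ^ 2) = L ^ (1 + a ^ 2) * L ^ (-r) := by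
          rw [← Real.rpow_add hL0]; congr 1; ring
        have e2 : (1 / L) ^ r = L ^ (-r) := by
          rw [one_div, Real.inv_rpow hL0.le, Real.rpow_neg hL0.le]
        rw [e1, e2]
        ring

/-- the set, with all bounds -/
theorem pkgl (K θ ε : ℝ) (N : ℕ) (hK : 0 ≤ K) (hθ : 0 < θ) (hε : 0 < ε) :
    ∃ (E : Set ℝ) (c C : ℝ), MeasurableSet E ∧ 0 < c ∧ 0 < C ∧
    (∀ t ∈ E, riemannZeta (1 / 2 + t * Complex.I) ≠ 0) ∧
    (∀ α : ℝ, 0 ≤ α → α < 1 → ∀ᶠ T : ℝ in atTop, ∀ H : ℝ, T / Real.log T ^ α ≤ H → H ≤ T →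
      (1 - ε) * H ≤ volume.real (Set.Icc T (T + H) ∩ E)) ∧
    (∀ β t : ℝ, IntegrableOn (fun u : ℝ => ‖riemannZeta (1 / 2 + ((t + u : ℝ) : ℂ) * Complex.I)‖ ^ β)
      {u : ℝ | u ∈ Set.Icc (0:ℝ) 1 ∧ t + u ∈ E}) ∧
    (∀ α : ℝ, 0 ≤ α → α < 1 → ∀ᶠ T : ℝ in atTop, ∀ H : ℝ, T / Real.log T ^ α ≤ H → H ≤ T → T ^ (min θ (1 / 2)) ≤ H ∧
      ∀ b : ℝ, |b| ≤ N * K + K →
        ENNReal.ofReal (c * Real.log T ^ (b ^ 2) * H) ≤ ∫⁻ s in Set.Icc (T + 1) (T + H), zk E b s) ∧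
    (∀ᶠ T : ℝ in atTop, ∀ H : ℝ, T ^ (min θ (1 / 2)) ≤ H → H ≤ T → ∀ l : ℝ, 0 < l → l ≤ 1 →
      ∀ m : ℕ, m + 1 ≤ N → ∀ k : ℝ, |k| ≤ K →
      ∫⁻ t in Set.Icc T (T + H), (∫⁻ u in Set.Icc (0:ℝ) l, zk E k (t + u)) ^ (m + 1) ≤
        ENNReal.ofReal (C * H * l * Real.log T ^ (((m + 1 : ℕ) : ℝ) * k ^ 2) *
          (Il (1 / Real.log T) (((m + 1 : ℕ) : ℝ) * k ^ 2) l) ^ m)) ∧
    (∀ᶠ T : ℝ in atTop, ∀ H : ℝ, T ^ (min θ (1 / 2)) ≤ H → H ≤ T → ∀ a : ℝ, |a| ≤ N * K + K →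
      ∃ F : ℝ → ℝ≥0∞, Measurable F ∧
      (∀ s ∈ E, T ≤ s → s ≤ 2 * T + 1 → zk E a s ≤ ∫⁻ v in Set.Icc 0 (1 / Real.log T), F (s + v)) ∧
      ∫⁻ s in Set.Icc T (T + H + 2), F s ≤ ENNReal.ofReal (C * H * Real.log T ^ (1 + a ^ 2))) := by
  obtain ⟨θ', hθ', hθ0, hθ2⟩ : ∃ θ' : ℝ, θ' = min θ (1 / 2) ∧ 0 < θ' ∧ θ' ≤ 1 / 2 :=
    ⟨min θ (1 / 2), rfl, lt_min hθ (by norm_num), min_le_right _ _⟩
  rw [← hθ']
  set B : ℝ := N * K + K with hB
  have hNK : (0:ℝ) ≤ N * K := by positivity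
  have hB0 : 0 ≤ B := by positivity
  have hKB : K ≤ B := by linarith
  obtain ⟨n, hn⟩ := exists_nat_ge (B + 1)
  have hn1 : 1 ≤ n := by
    have : (1:ℝ) ≤ n := by linarith
    exact_mod_cast this
  have hn1' : (1:ℝ) ≤ n := by exact_mod_cast hn1
  set δ₀ : ℝ := min (1 / 2) (θ' / (216 * n)) with hδ₀
  have hδ₀0 : 0 < δ₀ := lt_min (by norm_num) (by positivity)
  obtain ⟨E, c₁, C₁, W, δ, R, mE, hc₁, hC₁, hW, hδ, hδδ, hR1, hRδ, hE, hEv⟩ :=
    a_FIN3 B (ε / 2) δ₀ hB0 (by positivity) hδ₀0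
  have d1 : δ ≤ 1 / 2 := hδδ.trans (min_le_left _ _)
  have d2 : 216 * n * (R + 1) * δ ≤ θ' := by
    have h1 := hRδ.trans (min_le_right _ _)
    rw [le_div_iff₀ (by positivity)] at h1
    linarith
  set E' : Set ℝ := E ∩ Aw with hE'
  have mE' : MeasurableSet E' := mE.inter Aw_meas
  have hD : Dat W R δ E' := by
    intro j t ht h1 h2
    obtain ⟨a1, a2, a3⟩ := hE j t ht.1 h1 h2
    refine ⟨norm_pos_iff.mp a1, a2, fun i => ?_⟩
    have h3 := a3 i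
    have h4 : Z (((2:ℝ) ^ j) ^ δ) 1 i t =
        Pool.Agent.TH806.LK.zz (Pool.Agent.W184.NZ.II (((2:ℝ) ^ j) ^ δ)) t i := by
      unfold Z Pool.Agent.TH806.LK.zz Pool.Agent.W184.NZ.PI
      simp only [Pi.one_apply, one_mul]
    rw [h4]
    exact h3
  obtain ⟨C₂, hC₂, hup⟩ := up2l (N := N) hn1 hR1 hK (by linarith) hW.le hδ d1 d2 mE' hD Set.inter_subset_right
  obtain ⟨C₄, hC₄, hmj⟩ := maj hn1 hR1 hW.le hδ d1 d2 hD
  refine ⟨E', c₁ / 4, C₂ + C₄, mE', by positivity, by positivity, ?_, ?_,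
    fun β t => inner_int hδ.le (by linarith) mE' hD Set.inter_subset_right β t, ?_, ?_, ?_⟩
  · intro t ht
    obtain ⟨j, hj, hj'⟩ := exists_nat_pow_near (show (1:ℝ) ≤ t from ht.2.1) (by norm_num : (1:ℝ) < 2)
    exact (hD j t ht hj hj').1
  · intro α h0 h1
    filter_upwards [hEv α h0 h1, half_le α, eventually_ge_atTop (4:ℝ),
      (tendsto_rpow_atTop (show (0:ℝ) < 1 / 2 by norm_num)).eventually_ge_atTop (12 / ε)] with T a1 a2 hT4 a3 H hH1 hH2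
    have hTH := a2.trans hH1
    have hH0 : 0 ≤ H := le_trans (by positivity) hTH
    have b1 := (a1 H hH1 hH2).1
    have b2 := bad_meas hT4 hH0 hH2
    have b3 : 6 ≤ ε / 2 * H := by
      have h3 : 12 / ε ≤ H := a3.trans hTH
      rw [div_le_iff₀ hε] at h3
      linarith
    have e1 : volume.real (Set.Icc T (T + H)) = H := by
      rw [Real.volume_real_Icc_of_le (by linarith)]; ring
    have e2 := measureReal_inter_add_sdiff (μ := volume) (s := Set.Icc T (T + H)) mE' (by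
      rw [Real.volume_Icc]; exact ENNReal.ofReal_ne_top)
    rw [e1] at e2
    have hsub : Set.Icc T (T + H) \ E' ⊆ (Set.Icc T (T + H) ∩ Eᶜ) ∪ (Set.Icc T (T + H) ∩ Awᶜ) := by
      rintro t ⟨ht, htE⟩
      by_cases h2 : t ∈ E
      · exact Or.inr ⟨ht, fun h3 => htE ⟨h2, h3⟩⟩
      · exact Or.inl ⟨ht, h2⟩
    have hf : volume ((Set.Icc T (T + H) ∩ Eᶜ) ∪ (Set.Icc T (T + H) ∩ Awᶜ)) ≠ ⊤ :=
      measure_ne_top_of_subset (Set.union_subset Set.inter_subset_left Set.inter_subset_left)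
        (by rw [Real.volume_Icc]; exact ENNReal.ofReal_ne_top : volume (Set.Icc T (T + H)) ≠ ⊤)
    have b4 := (measureReal_mono (μ := volume) hsub hf).trans (measureReal_union_le _ _)
    linarith
  · intro α h0 h1
    have hβ0 : 0 ≤ (1 + α) / 2 := by linarith
    have hβ1 : (1 + α) / 2 < 1 := by linarith
    have hαβ : α < (1 + α) / 2 := by linarith
    obtain ⟨T₁, hT₁⟩ := eventually_atTop.mp (hEv ((1 + α) / 2) hβ0 hβ1)
    filter_upwards [win_ev h0 hαβ, half_le α, eventually_ge_atTop (256:ℝ), eventually_ge_atTop T₁] with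
      T a1 a2 hT hTT H hH1 hH2
    have hT0 : 0 < T := by linarith
    have hL : 0 < Real.log T := Real.log_pos (by linarith)
    have hTH := a2.trans hH1
    have hH16 : 16 ≤ H := by
      refine le_trans ?_ hTH
      rw [← Real.sqrt_eq_rpow]
      exact Real.le_sqrt_of_sq_le (by linarith)
    have hH0 : 0 < H := by linarith
    refine ⟨(Real.rpow_le_rpow_of_exponent_le (by linarith) hθ2).trans hTH, fun b hb => ?_⟩
    obtain ⟨A, hA, hA1, hA2, hA3⟩ := free (by linarith) hH16 hH2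
    have hAH := hT₁ A (hTT.trans hA.1) (H / 4) (a1 H hH1 A hA) (by linarith [hA.1])
    obtain ⟨i1, i2, -⟩ := hAH.2.2 b hb
    have hLk : Real.log T ^ (b ^ 2) ≤ Real.log A ^ (b ^ 2) :=
      Real.rpow_le_rpow hL.le (Real.log_le_log hT0 hA.1) (sq_nonneg b)
    have s1 : ENNReal.ofReal (∫ t in Set.Icc A (A + H / 4) ∩ E, Pool.Agent.TH806.Xz t ^ (2 * b)) =
        ∫⁻ t in Set.Icc A (A + H / 4) ∩ E, ENNReal.ofReal (Pool.Agent.TH806.Xz t ^ (2 * b)) :=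
      ofReal_integral_eq_lintegral_ofReal i1 (Filter.Eventually.of_forall fun t =>
        Real.rpow_nonneg (norm_nonneg _) _)
    have s2 : c₁ / 4 * Real.log T ^ (b ^ 2) * H ≤
        ∫ t in Set.Icc A (A + H / 4) ∩ E, Pool.Agent.TH806.Xz t ^ (2 * b) := by
      refine le_trans ?_ i2
      have : c₁ * (H / 4 * Real.log T ^ (b ^ 2)) ≤ c₁ * (H / 4 * Real.log A ^ (b ^ 2)) := by gcongr
      linarith
    refine (ENNReal.ofReal_le_ofReal s2).trans ?_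
    rw [s1]
    have s3 : ∫⁻ t in Set.Icc A (A + H / 4) ∩ E, ENNReal.ofReal (Pool.Agent.TH806.Xz t ^ (2 * b)) ≤
        ∫⁻ t in Set.Icc A (A + H / 4) ∩ E, zk E' b t := by
      refine setLIntegral_mono' (measurableSet_Icc.inter mE) fun t ht => ?_
      unfold zk
      rw [Set.indicator_of_mem (show t ∈ E' from ⟨ht.2, hA3 ht.1⟩)]
      exact le_rfl
    refine s3.trans (lintegral_mono_set fun t ht => ?_)
    exact ⟨by linarith [ht.1.1], by linarith [ht.1.2]⟩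
  · filter_upwards [hup, eventually_gt_atTop (1:ℝ)] with T a1 hT1 H hH1 hH2 l hl hl1 m hm k hk
    have hT0 : 0 < T := by linarith
    have hL : 0 < Real.log T := Real.log_pos hT1
    have hH0 : 0 < H := lt_of_lt_of_le (Real.rpow_pos_of_pos hT0 _) hH1
    have hI := Il_pos (δ := 1 / Real.log T) (ρ := ((m + 1 : ℕ) : ℝ) * k ^ 2) (l := l) (by positivity) hl
    refine (a1 H hH1 hH2 l hl hl1 m hm k hk).trans (ENNReal.ofReal_le_ofReal ?_)
    have : C₂ ≤ C₂ + C₄ := by linarith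
    gcongr
  · filter_upwards [hmj, eventually_gt_atTop (1:ℝ)] with T a1 hT1 H hH1 hH2 a ha
    have hT0 : 0 < T := by linarith
    have hL : 0 < Real.log T := Real.log_pos hT1
    have hH0 : 0 < H := lt_of_lt_of_le (Real.rpow_pos_of_pos hT0 _) hH1
    obtain ⟨F, hF, f1, f2⟩ := a1 H hH1 hH2 a (by linarith)
    refine ⟨F, hF, f1, f2.trans (ENNReal.ofReal_le_ofReal ?_)⟩
    have : C₄ ≤ C₂ + C₄ := by linarith
    gcongr

end Pool.Agent.V1126.MZ
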